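import Pool.Agent.Y184.NT.StB
import Pool.Agent.W602.GT.Der

/-!
Project NT (helper184): fields without vector fields over a subfield; the vector fields of
`RatFunc L`.
-/

set_option autoImplicit false

namespace Pool.Agent.Y888.NT

open Pool.Agent.Y184.NT Pool.Agent.W602.GT

theorem stFin : StFin := by
  intro R _ _ _ E0 h
  have h1 : Algebra.EssFiniteType E0 R := Algebra.EssFiniteType.of_comp ℂ E0 R
  have h2 : Subsingleton (Ω[R⁄E0]) := by
    have h3 : ∀ x : R, KaehlerDifferential.D E0 R x = 0 := by
      intro x
      rw [← Module.forall_dual_apply_eq_zero_iff R]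
      intro φ
      have h4 := h ((φ.compDer (KaehlerDifferential.D E0 R)).restrictScalars ℂ) (by
        intro y hy
        have h5 := (φ.compDer (KaehlerDifferential.D E0 R)).map_algebraMap ⟨y, hy⟩
        exact h5)
      exact DFunLike.congr_fun h4 x
    have h6 := KaehlerDifferential.span_range_derivation E0 R
    have h7 : Set.range (KaehlerDifferential.D E0 R) ⊆ {0} := by
      rintro _ ⟨x, rfl⟩
      exact h3 x
    have h8 : (⊤ : Submodule R (Ω[R⁄E0])) = ⊥ := by
      rw [← h6, Submodule.span_eq_bot]
      intro y hy
      exact h7 hy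
    exact (Submodule.subsingleton_iff R).1 (subsingleton_of_bot_eq_top h8.symm)
  have h9 : Algebra.FormallyUnramified E0 R := ⟨h2⟩
  exact Algebra.FormallyUnramified.finite_of_free E0 R

/-- derivations with values in a vector space are determined by their values on a transcendence
basis -/
theorem der_ext' {k L M : Type} [Field k] [CharZero k] [Field L] [Algebra k L] [AddCommGroup M]
    [Module L M] [Module k M] [IsScalarTower k L M] {w : Type} (t : w → L)
    (ht : IsTranscendenceBasis k t) {D D' : Derivation k L M} (h : ∀ i, D (t i) = D' (t i)) :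
    D = D' := by
  ext x
  have h1 : D x - D' x = 0 := by
    rw [← Module.forall_dual_apply_eq_zero_iff L]
    intro φ
    have h2 : φ.compDer D = φ.compDer D' := der_ext t ht (fun i => by
      change φ (D (t i)) = φ (D' (t i))
      rw [h i])
    have h3 : φ (D x) = φ (D' x) := DFunLike.congr_fun h2 x
    rw [map_sub, h3, sub_self]
  exact sub_eq_zero.1 h1

theorem basis_X (L : Type) [Field L] :
    IsTranscendenceBasis L (fun _ : Unit => (RatFunc.X : RatFunc L)) := by
  have h1 : AlgebraicIndependent L (fun _ : Unit => (RatFunc.X : RatFunc L)) :=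
    (algebraicIndependent_unique_type_iff).2 RatFunc.transcendental_X
  rw [h1.isTranscendenceBasis_iff_isAlgebraic]
  have h3 : Set.range (fun _ : Unit => (RatFunc.X : RatFunc L)) = {RatFunc.X} := by simp
  rw [h3]
  have h4 : Algebra.IsAlgebraic (IntermediateField.adjoin L {(RatFunc.X : RatFunc L)})
      (RatFunc L) := by
    rw [RatFunc.adjoin_X]
    infer_instance
  open scoped IntermediateField.algebraAdjoinAdjoin in
  have h5 : Algebra.IsAlgebraic (Algebra.adjoin L {(RatFunc.X : RatFunc L)})
      (IntermediateField.adjoin L {(RatFunc.X : RatFunc L)}) := inferInstance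
  open scoped IntermediateField.algebraAdjoinAdjoin in
  exact Algebra.IsAlgebraic.trans (Algebra.adjoin L {(RatFunc.X : RatFunc L)})
    (IntermediateField.adjoin L {(RatFunc.X : RatFunc L)}) (RatFunc L)

theorem stDer : StDer := by
  intro L _ _ n z hz E hE
  have hst : IsScalarTower ℂ L (RatFunc L) := inferInstance
  have hB : IsTranscendenceBasis ℂ (Fin.cons RatFunc.X fun i => algebraMap L (RatFunc L) (z i) :
      Fin (n + 1) → RatFunc L) := by
    have h1 := hz.sumElim_comp (basis_X L)
    let e : Fin (n + 1) ≃ Unit ⊕ Fin n :=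
      ((finSuccEquiv n).trans (Equiv.optionEquivSumPUnit (Fin n))).trans (Equiv.sumComm _ _)
    have h2 := (isTranscendenceBasis_equiv e).2 h1
    have h3 : (Sum.elim (fun _ : Unit => (RatFunc.X : RatFunc L))
        (algebraMap L (RatFunc L) ∘ z)) ∘ e =
        (Fin.cons RatFunc.X fun i => algebraMap L (RatFunc L) (z i) :
          Fin (n + 1) → RatFunc L) := by
      funext i
      refine Fin.cases ?_ (fun j => ?_) i
      · simp [e]
      · simp [e]
    rwa [h3] at h2
  refine ⟨hB, ?_⟩
  let c : Fin (n + 1) → Fin (n + 1) → RatFunc L := fun i j => if i = j then 1 else 0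
  have hex : ∀ i, ∃ D : Derivation ℂ (RatFunc L) (RatFunc L), ∀ j,
      D ((Fin.cons RatFunc.X fun i => algebraMap L (RatFunc L) (z i) :
        Fin (n + 1) → RatFunc L) j) = c i j := fun i => exists_der _ hB (c i)
  choose δ hδ using hex
  have hδz : ∀ i j, δ i (algebraMap L (RatFunc L) (z j)) = c i j.succ := by
    intro i j
    have h1 := hδ i j.succ
    rwa [Fin.cons_succ] at h1
  have hδX : ∀ i, δ i RatFunc.X = c i 0 := by
    intro i
    have h1 := hδ i 0
    rwa [Fin.cons_zero] at h1
  refine ⟨δ, ?_, ?_, ?_, ?_⟩
  · rw [hδX]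
    simp [c]
  · have h1 : (δ 0).compAlgebraMap L = 0 := der_ext' z hz (fun j => by
      change δ 0 (algebraMap L (RatFunc L) (z j)) = 0
      rw [hδz]
      simp [c, Fin.ext_iff])
    intro l
    exact DFunLike.congr_fun h1 l
  · intro i
    rw [hδX]
    simp [c, Fin.ext_iff]
  · intro i
    have h1 : (δ i.succ).compAlgebraMap L =
        (Algebra.linearMap L (RatFunc L)).compDer (E i) := der_ext' z hz (fun j => by
      change δ i.succ (algebraMap L (RatFunc L) (z j)) = algebraMap L (RatFunc L) (E i (z j))
      rw [hδz, hE]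
      simp only [c, Fin.succ_inj]
      split_ifs
      · rw [map_one]
      · rw [map_zero])
    intro l
    exact DFunLike.congr_fun h1 l

end Pool.Agent.Y888.NT
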